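import Mathlib

set_option autoImplicit false

/-!
# MP_8f7db2_an: definitions and targets

`lam N n Ω` is the `n`-th Dirichlet eigenvalue (min-max over smooth compactly supported functions),
exactly the shape of the frozen statement.
-/

open MeasureTheory Metric Set ProbabilityTheory
open scoped ENNReal

namespace Pool.Agent.H85.LK

/-- Euclidean space -/
abbrev E (N : ℕ) := EuclideanSpace ℝ (Fin N)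

/-- the constants admissible in the min-max definition of the `n`-th eigenvalue -/
def adm (N n : ℕ) (Ω : Set (E N)) : Set ℝ :=
  {c : ℝ | ∃ V : Submodule ℝ (E N → ℝ), Module.finrank ℝ V = n ∧
    ∀ v ∈ V, ContDiff ℝ (⊤ : ℕ∞) v ∧ HasCompactSupport v ∧ tsupport v ⊆ Ω ∧
      ∫ x, ‖fderiv ℝ v x‖ ^ 2 ≤ c * ∫ x, v x ^ 2}

/-- the `n`-th Dirichlet eigenvalue of `Ω` -/
noncomputable def lam (N n : ℕ) (Ω : Set (E N)) : ℝ := sInf (adm N n Ω)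

/-- heat kernel -/
noncomputable def hk (N : ℕ) (s : ℝ) (z : E N) : ℝ :=
  (4 * Real.pi * s) ^ (-(N : ℝ) / 2) * Real.exp (-‖z‖ ^ 2 / (4 * s))

/-- smoothing by the heat kernel -/
noncomputable def sm (N : ℕ) (s : ℝ) (f : E N → ℝ) (x : E N) : ℝ := ∫ y, hk N s (x - y) * f y

/-- the quadratic form of the heat kernel -/
noncomputable def Qf (N : ℕ) (s : ℝ) (v : E N → ℝ) : ℝ := ∫ x, v x * sm N s v x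

/-- bounded measurable functions vanishing outside `A` -/
def Bd {N : ℕ} (A : Set (E N)) (v : E N → ℝ) : Prop :=
  Measurable v ∧ (∃ M : ℝ, ∀ x, |v x| ≤ M) ∧ ∀ x, x ∉ A → v x = 0

/-- iterates of the heat operator killed outside `A` -/
noncomputable def it (N : ℕ) (s : ℝ) (A : Set (E N)) : ℕ → E N → ℝ
  | 0 => A.indicator (fun _ => 1)
  | m + 1 => A.indicator (sm N s (it N s A m))

noncomputable def Phi (N : ℕ) (s : ℝ) (A : Set (E N)) (m : ℕ) : ℝ := ∫ x, it N s A m x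

/-- reflection in the hyperplane `⟪x, e⟫ = h` -/
noncomputable def refl {N : ℕ} (e : E N) (h : ℝ) (x : E N) : E N := x - (2 * (inner ℝ x e - h)) • e

/-- polarization of `A` towards the half space `⟪x, e⟫ < h` -/
def pol {N : ℕ} (e : E N) (h : ℝ) (A : Set (E N)) : Set (E N) :=
  {x | (inner ℝ x e < h ∧ (x ∈ A ∨ refl e h x ∈ A)) ∨ (h ≤ inner ℝ x e ∧ x ∈ A ∧ refl e h x ∈ A)}

/-- the profile -/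
noncomputable def chi (b l z : ℝ) : ℝ :=
  if b ≤ z ∧ z ≤ b + l then Real.exp (z ^ 2 / 4) * ((z - b) * (b + l - z)) else 0

/-- its derivative -/
noncomputable def dchi (b l z : ℝ) : ℝ :=
  if b ≤ z ∧ z ≤ b + l then
    Real.exp (z ^ 2 / 4) * ((b + l - z) - (z - b) + z / 2 * ((z - b) * (b + l - z))) else 0

noncomputable def M2 (b l : ℝ) : ℝ := ∫ z, chi b l z ^ 2 ∂(gaussianReal 0 1)
noncomputable def DD (b l : ℝ) : ℝ := ∫ z, dchi b l z ^ 2 ∂(gaussianReal 0 1)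

/-- the field: `‖w‖ χ(⟪c, w⟫ / ‖w‖)` -/
noncomputable def GG (b l : ℝ) {n : ℕ} (c w : E n) : ℝ := ‖w‖ * chi b l (inner ℝ c w / ‖w‖)

/-- the region where the field may be nonzero -/
def reg (b : ℝ) {N n : ℕ} (Ψ : E N → E n) (c : E n) : Set (E N) :=
  {x | Ψ x ≠ 0 ∧ b < inner ℝ c (Ψ x) / ‖Ψ x‖}

/-- standing assumption on vector fields: bounded measurable, zero outside `A` -/
def BdV {N n : ℕ} (A : Set (E N)) (Ψ : E N → E n) : Prop :=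
  Measurable Ψ ∧ (∃ M : ℝ, ∀ x, ‖Ψ x‖ ≤ M) ∧ ∀ x, x ∉ A → Ψ x = 0

/-! ### Part 1: heat kernel -/

def T_HK : Prop := ∀ (N : ℕ) (s : ℝ), 0 < s →
  (∀ z, 0 < hk N s z) ∧ Continuous (hk N s) ∧ Integrable (hk N s) ∧ ∫ z, hk N s z = 1 ∧
  Integrable (fun z => hk N s z * ‖z‖ ^ 2) ∧
  (∀ a : E N, ∫ z, hk N s z * inner ℝ z a ^ 2 = 2 * s * ‖a‖ ^ 2) ∧
  (∀ a : E N, ∫ z, hk N s z * inner ℝ z a = 0) ∧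
  (∀ η : ℝ, 0 ≤ η → ∫ z in {z : E N | η ≤ ‖z‖}, hk N s z ≤
    2 ^ ((N : ℝ) / 2) * Real.exp (-η ^ 2 / (8 * s)))

def T_INT : Prop := ∀ (N : ℕ) (s : ℝ) (A : Set (E N)) (f g : E N → ℝ), 0 < s →
  MeasurableSet A → Bornology.IsBounded A → Bd A f → Bd A g →
  Integrable (fun p : E N × E N => hk N s (p.1 - p.2) * (f p.1 * g p.2)) (volume.prod volume) ∧
  Integrable (fun p : E N × E N => hk N s (p.1 - p.2) * f p.1 ^ 2) (volume.prod volume) ∧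
  Integrable (fun p : E N × E N => hk N s (p.1 - p.2) * f p.2 ^ 2) (volume.prod volume) ∧
  Integrable f ∧ Integrable (fun x => f x * g x) ∧ Integrable (fun x => f x ^ 2) ∧
  Measurable (sm N s f) ∧ Integrable (sm N s f) ∧
  (∀ M : ℝ, (∀ x, |f x| ≤ M) → ∀ x, |sm N s f x| ≤ M) ∧
  (∀ x, Integrable (fun y => hk N s (x - y) * f y)) ∧
  Integrable (fun x => f x * sm N s g x)

/-- `∫ v² - Q(v) = 1/2 ∬ hk (x - y) (v x - v y)²` -/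
def T_QID : Prop := ∀ (N : ℕ) (s : ℝ) (A : Set (E N)) (v : E N → ℝ), 0 < s →
  MeasurableSet A → Bornology.IsBounded A → Bd A v →
  Integrable (fun p : E N × E N => hk N s (p.1 - p.2) * (v p.1 - v p.2) ^ 2)
    (volume.prod volume) ∧
  (∫ x, v x ^ 2) - Qf N s v =
    1 / 2 * ∫ p : E N × E N, hk N s (p.1 - p.2) * (v p.1 - v p.2) ^ 2 ∂(volume.prod volume)

/-- energy inequality -/
def T_ENL : Prop := ∀ (N : ℕ) (s : ℝ) (ψ : E N → ℝ), 0 < s → ContDiff ℝ (⊤ : ℕ∞) ψ →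
  HasCompactSupport ψ → (∫ x, ψ x ^ 2) - Qf N s ψ ≤ s * ∫ x, ‖fderiv ℝ ψ x‖ ^ 2

/-! ### Part 2: admissible constants -/

def T_LA : Prop := ∀ (N : ℕ) (Ω : Set (E N)) (v : E N → ℝ), 1 ≤ N → ContDiff ℝ (⊤ : ℕ∞) v →
  HasCompactSupport v → tsupport v ⊆ Ω →
  lam N 1 Ω * ∫ x, v x ^ 2 ≤ ∫ x, ‖fderiv ℝ v x‖ ^ 2

def T_AP : Prop := ∀ (N n : ℕ) (Ω : Set (E N)) (c : ℝ), 1 ≤ n → c ∈ adm N n Ω → 0 ≤ c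

def T_NE : Prop := ∀ (N n : ℕ) (Ω : Set (E N)), 1 ≤ N → IsOpen Ω → Ω.Nonempty →
  (adm N n Ω).Nonempty

def T_SCL : Prop := ∀ (N n : ℕ) (ρ : ℝ), 0 < ρ →
  (∀ (Ω : Set (E N)) (c : ℝ), c ∈ adm N n Ω →
    c / ρ ^ 2 ∈ adm N n ((fun x => ρ⁻¹ • x) ⁻¹' Ω)) ∧
  (∀ Ω : Set (E N), lam N n ((fun x => ρ⁻¹ • x) ⁻¹' Ω) = lam N n Ω / ρ ^ 2) ∧
  lam N n (ball (0 : E N) ρ) = lam N n (ball (0 : E N) 1) / ρ ^ 2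

def T_SCQ : Prop := ∀ (N : ℕ) (s ρ : ℝ) (v : E N → ℝ), 0 < s → 0 < ρ →
  Qf N s v = ρ ^ N * Qf N (s / ρ ^ 2) (fun x => v (ρ • x)) ∧
  ∫ x, v x ^ 2 = ρ ^ N * ∫ x, v (ρ • x) ^ 2

/-- `λ₁` of the unit ball is positive -/
def T_PI : Prop := ∀ N : ℕ, 1 ≤ N → 0 < lam N 1 (ball (0 : E N) 1)

/-! ### Part 3: the heat operator on the unit ball -/

def T_RPS : Prop := ∀ (N : ℕ) (s : ℝ) (f : E N → ℝ), 0 < s → Bd (ball (0 : E N) 1) f →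
  ContDiff ℝ (⊤ : ℕ∞) (sm N s f) ∧
  ∀ x a : E N, fderiv ℝ (sm N s f) x a =
    1 / (2 * s) * ∫ y, hk N s (x - y) * (inner ℝ (y - x) a * f y)

def T_RPA : Prop := ∀ (N : ℕ) (s : ℝ) (f : E N → ℝ), 0 < s → Bd (ball (0 : E N) 1) f →
  Integrable (fun x => sm N s f x ^ 2) ∧ Integrable (fun x => ‖fderiv ℝ (sm N s f) x‖ ^ 2) ∧
  (∫ x, sm N s f x ^ 2) + 2 * s * (∫ x, ‖fderiv ℝ (sm N s f) x‖ ^ 2) ≤ ∫ x, f x ^ 2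

def T_RPT : Prop := ∀ (N : ℕ) (s η : ℝ) (f : E N → ℝ), 0 < s → 0 < η →
  Bd (ball (0 : E N) 1) f →
  ∫ x in {x : E N | 1 + η ≤ ‖x‖}, sm N s f x ^ 2 ≤
    (∫ z in {z : E N | η ≤ ‖z‖}, hk N s z) * ∫ x, f x ^ 2

def T_RP : Prop := ∀ (N : ℕ) (K : ℝ), 1 ≤ N → K < lam N 1 (ball (0 : E N) 1) →
  ∃ s₀ : ℝ, 0 < s₀ ∧ ∀ s : ℝ, 0 < s → s ≤ s₀ → 0 ≤ 1 - s * K ∧
    ∀ f : E N → ℝ, Bd (ball (0 : E N) 1) f →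
      ∫ x in ball (0 : E N) 1, sm N s f x ^ 2 ≤ (1 - s * K) ^ 2 * ∫ x, f x ^ 2

/-! ### Part 4: polarization -/

def T_POL : Prop := ∀ (N : ℕ) (s : ℝ) (e : E N) (h : ℝ) (A : Set (E N)) (m : ℕ), 0 < s →
  ‖e‖ = 1 → 0 < h → MeasurableSet A → Bornology.IsBounded A →
  Phi N s A m ≤ Phi N s (pol e h A) m

def T_PVO : Prop := ∀ (N : ℕ) (e : E N) (h ρ : ℝ) (A : Set (E N)), ‖e‖ = 1 → 0 < h →
  MeasurableSet A → A ⊆ ball 0 ρ →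
  MeasurableSet (pol e h A) ∧ pol e h A ⊆ ball 0 ρ ∧ volume (pol e h A) = volume A

/-- polar coordinates -/
def T_PLR : Prop := ∀ N : ℕ, 1 ≤ N → ∀ f : E N → ℝ≥0∞, Measurable f →
  ∫⁻ x, f x = ∫⁻ θ : sphere (0 : E N) 1, (∫⁻ t in Ioi (0 : ℝ),
    ENNReal.ofReal (t ^ (N - 1)) * f (t • (θ : E N))) ∂((volume : Measure (E N)).toSphere)

def T_GRD : Prop := ∀ (N : ℕ) (ρ : ℝ), 1 ≤ N → 0 < ρ → ∃ c : ℝ, 0 < c ∧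
  ∀ (r : ℝ) (A : Set (E N)), 0 < r → r ≤ ρ → MeasurableSet A → A ⊆ ball 0 ρ →
    volume A = volume (ball (0 : E N) r) →
    ∃ (e : E N) (h : ℝ), ‖e‖ = 1 ∧ 0 < h ∧
      volume.real (pol e h A \ ball 0 r) ≤
        volume.real (A \ ball 0 r) - c * volume.real (A \ ball 0 r) ^ 2

def T_CNT : Prop := ∀ (N : ℕ) (s : ℝ) (A A' : Set (E N)) (m : ℕ), 0 < s →
  MeasurableSet A → MeasurableSet A' → Bornology.IsBounded A → Bornology.IsBounded A' →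
  |Phi N s A m - Phi N s A' m| ≤ (m + 1) * volume.real (symmDiff A A')

def T_CNV : Prop := ∀ (N : ℕ) (s r : ℝ) (A : Set (E N)) (m : ℕ), 1 ≤ N → 0 < s → 0 < r →
  MeasurableSet A → Bornology.IsBounded A → volume A ≤ volume (ball (0 : E N) r) →
  Phi N s A m ≤ Phi N s (ball 0 r) m

def T_PWR : Prop := ∀ (N : ℕ) (s τ : ℝ) (A : Set (E N)) (v : E N → ℝ), 0 < s → 0 ≤ τ →
  MeasurableSet A → Bornology.IsBounded A → Bd A v →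
  (∀ m, Phi N s A m ≤ Phi N s (ball 0 1) m) →
  (∀ f : E N → ℝ, Bd (ball (0 : E N) 1) f →
    ∫ x in ball (0 : E N) 1, sm N s f x ^ 2 ≤ τ ^ 2 * ∫ x, f x ^ 2) →
  Qf N s v ≤ τ * ∫ x, v x ^ 2

/-- discrete Faber-Krahn inequality, scale invariant -/
def T_FKL : Prop := ∀ (N : ℕ) (K : ℝ), 1 ≤ N → K < lam N 1 (ball (0 : E N) 1) →
  ∃ s₀ : ℝ, 0 < s₀ ∧ ∀ (ρ s : ℝ) (A : Set (E N)) (v : E N → ℝ), 0 < ρ → 0 < s →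
    s ≤ s₀ * ρ ^ 2 → MeasurableSet A → Bornology.IsBounded A →
    volume A ≤ volume (ball (0 : E N) ρ) → Bd A v →
    K / ρ ^ 2 * (∫ x, v x ^ 2) ≤ ((∫ x, v x ^ 2) - Qf N s v) / s

/-! ### Part 5: Gaussian facts -/

def T_GV : Prop := ∀ (n : ℕ) (u u' : E n), ‖u‖ = 1 → ‖u'‖ = 1 →
  (stdGaussian (E n)).map (fun c => ((inner ℝ c u : ℝ), (inner ℝ c u' : ℝ))) =
  ((gaussianReal 0 1).prod (gaussianReal 0 1)).map (fun p : ℝ × ℝ =>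
    (p.1, inner ℝ u u' * p.1 + Real.sqrt (1 - (inner ℝ u u' : ℝ) ^ 2) * p.2))

/-- Gaussian Poincaré inequality -/
def T_CH : Prop := ∀ (φ d : ℝ → ℝ), Measurable φ → Measurable d → (∃ M : ℝ, ∀ z, |d z| ≤ M) →
  (∀ z z' : ℝ, φ z - φ z' = ∫ t in z'..z, d t) →
  (∫ z, φ z ^ 2 ∂(gaussianReal 0 1)) - (∫ z, φ z ∂(gaussianReal 0 1)) ^ 2 ≤
    ∫ z, d z ^ 2 ∂(gaussianReal 0 1)

def T_CHP : Prop := ∀ b l : ℝ, 0 < b → 0 < l →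
  Measurable (chi b l) ∧ Measurable (dchi b l) ∧ (∀ z, 0 ≤ chi b l z) ∧
  (∀ z, chi b l z ≠ 0 → b < z ∧ z < b + l) ∧
  (∃ M : ℝ, ∀ z, chi b l z ≤ M ∧ |dchi b l z| ≤ M) ∧
  ∀ z z' : ℝ, chi b l z - chi b l z' = ∫ t in z'..z, dchi b l t

def T_CHI : Prop := ∀ b : ℝ, 1 ≤ b →
  0 < M2 b (b ^ (-(1 / 3) : ℝ)) ∧ M2 b (b ^ (-(1 / 3) : ℝ)) ≤ DD b (b ^ (-(1 / 3) : ℝ)) ∧
  DD b (b ^ (-(1 / 3) : ℝ)) ≤
    (b ^ 2 / 4 + 11 * b ^ ((2 / 3) : ℝ)) * M2 b (b ^ (-(1 / 3) : ℝ))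

def T_COV : Prop := ∀ b l κ : ℝ, 0 < b → 0 < l → M2 b l ≤ DD b l → -1 ≤ κ → κ ≤ 1 →
  M2 b l - DD b l * (1 - κ) ≤
    ∫ p : ℝ × ℝ, chi b l p.1 * chi b l (κ * p.1 + Real.sqrt (1 - κ ^ 2) * p.2)
      ∂((gaussianReal 0 1).prod (gaussianReal 0 1))

def T_DIF : Prop := ∀ (n : ℕ) (b l : ℝ) (w w' : E n), 0 < b → 0 < l → M2 b l ≤ DD b l →
  ∫ c, (GG b l c w - GG b l c w') ^ 2 ∂(stdGaussian (E n)) ≤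
    M2 b l * (‖w‖ - ‖w'‖) ^ 2 + DD b l * (‖w - w'‖ ^ 2 - (‖w‖ - ‖w'‖) ^ 2)

def T_NRM : Prop := ∀ (n : ℕ) (b l : ℝ) (w : E n), 0 < b → 0 < l →
  ∫ c, GG b l c w ^ 2 ∂(stdGaussian (E n)) = M2 b l * ‖w‖ ^ 2

def T_COR : Prop := ∀ (n : ℕ) (b l : ℝ) (u u' : E n), 1 ≤ b → 0 < l → ‖u‖ = 1 → ‖u'‖ = 1 →
  ∫ c, ({c : E n | b < inner ℝ c u'}.indicator (fun _ => (1 : ℝ)) c) *
      chi b l (inner ℝ c u) ^ 2 ∂(stdGaussian (E n)) ≤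
    M2 b l * (Real.exp (1 - b ^ 2 / 2) + (b + l) ^ 4 * (inner ℝ u u' : ℝ) ^ 2)

/-! ### Part 6: the random fields -/

def T_MEA : Prop := ∀ (N n : ℕ) (b l : ℝ) (A : Set (E N)) (Ψ : E N → E n), 0 < b → 0 < l →
  MeasurableSet A → BdV A Ψ →
  Measurable (fun p : E n × E N => GG b l p.1 (Ψ p.2)) ∧
  (∃ M : ℝ, ∀ (c : E n) (x : E N), |GG b l c (Ψ x)| ≤ M) ∧
  (∀ c : E n, Bd (reg b Ψ c) (fun x => GG b l c (Ψ x)) ∧ Bd A (fun x => GG b l c (Ψ x))) ∧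
  MeasurableSet {p : E n × E N | p.2 ∈ reg b Ψ p.1} ∧
  (∀ c : E n, MeasurableSet (reg b Ψ c) ∧ reg b Ψ c ⊆ {x | Ψ x ≠ 0} ∧ reg b Ψ c ⊆ A)

def T_FL1 : Prop := ∀ (N n : ℕ) (b l s : ℝ) (A : Set (E N)) (Ψ : E N → E n), 0 < b → 0 < l →
  M2 b l ≤ DD b l → 0 < s → MeasurableSet A → Bornology.IsBounded A → BdV A Ψ →
  Integrable (fun c => (∫ x, GG b l c (Ψ x) ^ 2) - Qf N s (fun x => GG b l c (Ψ x)))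
    (stdGaussian (E n)) ∧
  ∫ c, ((∫ x, GG b l c (Ψ x) ^ 2) - Qf N s (fun x => GG b l c (Ψ x))) ∂(stdGaussian (E n)) ≤
    (M2 b l - DD b l) * ((∫ x, ‖Ψ x‖ ^ 2) - Qf N s (fun x => ‖Ψ x‖)) +
      DD b l * ∑ i, ((∫ x, Ψ x i ^ 2) - Qf N s (fun x => Ψ x i))

def T_FL2 : Prop := ∀ (N n : ℕ) (b l : ℝ) (A : Set (E N)) (Ψ : E N → E n), 0 < b → 0 < l →
  MeasurableSet A → Bornology.IsBounded A → BdV A Ψ →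
  Integrable (fun c => ∫ x, GG b l c (Ψ x) ^ 2) (stdGaussian (E n)) ∧
  ∫ c, (∫ x, GG b l c (Ψ x) ^ 2) ∂(stdGaussian (E n)) = M2 b l * ∫ x, ‖Ψ x‖ ^ 2

def T_FL3 : Prop := ∀ (N n : ℕ) (b l : ℝ) (A : Set (E N)) (Ψ : E N → E n), 1 ≤ b → 0 < l →
  MeasurableSet A → Bornology.IsBounded A → BdV A Ψ →
  (∀ i j, ∫ x, Ψ x i * Ψ x j = if i = j then 1 else 0) →
  Integrable (fun c => volume.real (reg b Ψ c) * ∫ x, GG b l c (Ψ x) ^ 2)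
    (stdGaussian (E n)) ∧
  ∫ c, (volume.real (reg b Ψ c) * ∫ x, GG b l c (Ψ x) ^ 2) ∂(stdGaussian (E n)) ≤
    volume.real {x | Ψ x ≠ 0} * (M2 b l * (n * Real.exp (1 - b ^ 2 / 2) + (b + l) ^ 4))

def T_ONB : Prop := ∀ (N n : ℕ) (V : Submodule ℝ (E N → ℝ)), 1 ≤ n → Module.finrank ℝ V = n →
  (∀ v ∈ V, Continuous v ∧ HasCompactSupport v) →
  ∃ ψ : Fin n → E N → ℝ, (∀ i, ψ i ∈ V) ∧
    ∀ i j, ∫ x, ψ i x * ψ j x = if i = j then 1 else 0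

/-- Faber-Krahn for the frozen definition -/
def T_FK : Prop := ∀ (N n : ℕ) (r c : ℝ) (Ω : Set (E N)), 1 ≤ N → 1 ≤ n → 0 < r →
  IsOpen Ω → volume Ω ≤ volume (ball (0 : E N) r) → c ∈ adm N n Ω →
  lam N 1 (ball (0 : E N) 1) / r ^ 2 ≤ c

/-- main estimate -/
def T_ASM : Prop := ∀ (N n : ℕ) (r b c : ℝ) (Ω : Set (E N)), 1 ≤ N → 1 ≤ n → 0 < r → 1 ≤ b →
  IsOpen Ω → volume Ω = volume (ball (0 : E N) r) → c ∈ adm N n Ω →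
  lam N 1 (ball (0 : E N) 1) / r ^ 2 *
    (1 + 2 / N * (M2 b (b ^ (-(1 / 3) : ℝ)) / DD b (b ^ (-(1 / 3) : ℝ))) *
      Real.log (1 / (Real.exp (1 - b ^ 2 / 2) + (b + b ^ (-(1 / 3) : ℝ)) ^ 4 / n))) ≤ c

def T_NUM : Prop := ∀ (n : ℕ) (b μ : ℝ), 2 ≤ n → b = Real.sqrt (Real.log n) →
  48 * Real.log n ^ (-(2 / 3) : ℝ) ≤ 1 → 1 ≤ μ → μ ≤ b ^ 2 / 4 + 11 * b ^ ((2 / 3) : ℝ) →
  2 * (1 - 48 * Real.log n ^ (-(2 / 3) : ℝ)) ≤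
    1 / μ * Real.log (1 / (Real.exp (1 - b ^ 2 / 2) + (b + b ^ (-(1 / 3) : ℝ)) ^ 4 / n))

/-- the lower bound -/
def T_THI : Prop := ∀ (N n : ℕ) (r : ℝ) (Ω : Set (E N)), 1 ≤ N → 2 ≤ n → 0 < r →
  IsOpen Ω → volume Ω = volume (ball (0 : E N) r) →
  lam N 1 (ball (0 : E N) r) * (1 + 4 / N * (1 - 48 * Real.log n ^ (-(2 / 3) : ℝ))) ≤ lam N n Ω

/-! ### Part 7: the ball -/

def T_BUA : Prop := ∀ (N : ℕ) (w : E N → ℝ) (K : ℝ), 1 ≤ N → ContDiff ℝ (⊤ : ℕ∞) w →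
  HasCompactSupport w → tsupport w ⊆ ball 0 1 → w ≠ 0 →
  ∫ x, ‖fderiv ℝ w x‖ ^ 2 ≤ K * ∫ x, w x ^ 2 →
  ∃ g : ℝ → ℝ, ContDiff ℝ (⊤ : ℕ∞) g ∧ (∃ δ : ℝ, 0 < δ ∧ δ < 1 ∧ ∀ t, 1 - δ ≤ t → g t = 0) ∧
    0 < ∫ t in Ioi (0 : ℝ), g t ^ 2 * t ^ (N - 1) ∧
    ∫ t in Ioi (0 : ℝ), deriv g t ^ 2 * t ^ (N - 1) ≤
      K * ∫ t in Ioi (0 : ℝ), g t ^ 2 * t ^ (N - 1)

/-- smooth functions supported in `[δ, 1 - δ]` -/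
def Ann (a : ℝ → ℝ) (δ : ℝ) : Prop :=
  ContDiff ℝ (⊤ : ℕ∞) a ∧ 0 < δ ∧ δ < 1 ∧ (∀ t, t ≤ δ → a t = 0) ∧ ∀ t, 1 - δ ≤ t → a t = 0

def T_BUB : Prop := ∀ (N : ℕ) (g : ℝ → ℝ) (K ε : ℝ), 3 ≤ N → 0 < ε → ContDiff ℝ (⊤ : ℕ∞) g →
  (∃ δ : ℝ, 0 < δ ∧ δ < 1 ∧ ∀ t, 1 - δ ≤ t → g t = 0) →
  0 < ∫ t in Ioi (0 : ℝ), g t ^ 2 * t ^ (N - 1) →
  ∫ t in Ioi (0 : ℝ), deriv g t ^ 2 * t ^ (N - 1) ≤
      K * ∫ t in Ioi (0 : ℝ), g t ^ 2 * t ^ (N - 1) →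
  ∃ (a : ℝ → ℝ) (δ : ℝ), Ann a δ ∧ 0 < ∫ t in Ioi (0 : ℝ), a t ^ 2 * t ^ (N - 1) ∧
    ∫ t in Ioi (0 : ℝ), deriv a t ^ 2 * t ^ (N - 1) ≤
      (K + ε) * ∫ t in Ioi (0 : ℝ), a t ^ 2 * t ^ (N - 1)

/-- Hardy -/
def T_HDY : Prop := ∀ (N : ℕ) (a : ℝ → ℝ) (δ : ℝ), 3 ≤ N → Ann a δ →
  ∫ t in Ioi (0 : ℝ), a t ^ 2 * t ^ (N - 3) ≤
    4 / ((N : ℝ) - 2) ^ 2 * ∫ t in Ioi (0 : ℝ), deriv a t ^ 2 * t ^ (N - 1)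

def T_SYM : Prop := ∀ (N : ℕ) (f : ℝ → ℝ) (β : E N), 1 ≤ N →
  Integrable (fun x : E N => ‖x‖ ^ 2 * f ‖x‖) → Integrable (fun x : E N => ‖x‖ * f ‖x‖) →
  ∫ x : E N, inner ℝ β x * f ‖x‖ = 0 ∧
  ∫ x : E N, inner ℝ β x ^ 2 * f ‖x‖ = ‖β‖ ^ 2 / N * ∫ x : E N, ‖x‖ ^ 2 * f ‖x‖

def T_BUC : Prop := ∀ (N : ℕ) (a : ℝ → ℝ) (δ α : ℝ) (β : E N), 1 ≤ N → Ann a δ →
  ContDiff ℝ (⊤ : ℕ∞) (fun x : E N => (α + inner ℝ β x / ‖x‖) * a ‖x‖) ∧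
  HasCompactSupport (fun x : E N => (α + inner ℝ β x / ‖x‖) * a ‖x‖) ∧
  tsupport (fun x : E N => (α + inner ℝ β x / ‖x‖) * a ‖x‖) ⊆ ball 0 1 ∧
  ∫ x : E N, ((α + inner ℝ β x / ‖x‖) * a ‖x‖) ^ 2 =
    (α ^ 2 + ‖β‖ ^ 2 / N) * ∫ x : E N, a ‖x‖ ^ 2 ∧
  ∫ x : E N, ‖fderiv ℝ (fun x : E N => (α + inner ℝ β x / ‖x‖) * a ‖x‖) x‖ ^ 2 =
    (α ^ 2 + ‖β‖ ^ 2 / N) * (∫ x : E N, deriv a ‖x‖ ^ 2) +
      ‖β‖ ^ 2 * (1 - 1 / N) * (∫ x : E N, a ‖x‖ ^ 2 / ‖x‖ ^ 2)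

/-- upper bound for the ball -/
def T_BUD : Prop := ∀ N : ℕ, 3 ≤ N →
  lam N (N + 1) (ball (0 : E N) 1) ≤
    (1 + 4 * ((N : ℝ) - 1) / ((N : ℝ) - 2) ^ 2) * lam N 1 (ball (0 : E N) 1)

/-! ### Part 8: disconnected sets -/

def T_DU : Prop := ∀ (N n : ℕ) (Ω₁ Ω₂ : Set (E N)) (c : ℝ), IsOpen Ω₁ → IsOpen Ω₂ →
  Disjoint Ω₁ Ω₂ → 1 ≤ n → c ∈ adm N n (Ω₁ ∪ Ω₂) →
  ∃ n₁ n₂ : ℕ, n₁ + n₂ = n ∧ c ∈ adm N n₁ Ω₁ ∧ c ∈ adm N n₂ Ω₂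

/-- linear algebra core of `T_DU` -/
def T_LIN : Prop := ∀ (W₁ W₂ : Type) [AddCommGroup W₁] [Module ℝ W₁] [FiniteDimensional ℝ W₁]
  [AddCommGroup W₂] [Module ℝ W₂] [FiniteDimensional ℝ W₂]
  (q₁ : QuadraticForm ℝ W₁) (q₂ : QuadraticForm ℝ W₂) (V : Submodule ℝ (W₁ × W₂)),
  (∀ v ∈ V, 0 ≤ q₁ v.1 + q₂ v.2) →
  ∃ (P₁ : Submodule ℝ W₁) (P₂ : Submodule ℝ W₂), (∀ v ∈ P₁, 0 ≤ q₁ v) ∧ (∀ v ∈ P₂, 0 ≤ q₂ v) ∧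
    Module.finrank ℝ P₁ + Module.finrank ℝ P₂ = Module.finrank ℝ V

def T_NUM2 : Prop := ∃ N₀ : ℕ, ∀ N m : ℕ, N₀ ≤ N → N₀ ≤ m →
  0 < 1 + 4 / (N : ℝ) * (1 - 48 * Real.log m ^ (-(2 / 3) : ℝ)) ∧
  1 < ((1 + 4 / (N : ℝ) * (1 - 48 * Real.log m ^ (-(2 / 3) : ℝ))) /
        (1 + 4 * ((N : ℝ) - 1) / ((N : ℝ) - 2) ^ 2)) ^ ((N : ℝ) / 2) +
      (1 / (1 + 4 * ((N : ℝ) - 1) / ((N : ℝ) - 2) ^ 2)) ^ ((N : ℝ) / 2)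

def T_MON : Prop := ∀ (N n n' : ℕ) (Ω Ω' : Set (E N)), n ≤ n' → Ω ⊆ Ω' →
  adm N n' Ω ⊆ adm N n Ω'

/-- hand-in A -/
def T_MA : Prop := ∀ (N n : ℕ) (r : ℝ) (Ω : Set (E N)), 3 ≤ N → 2 ≤ n → n ≤ N + 1 → 0 < r →
  IsOpen Ω → volume Ω = volume (ball (0 : E N) r) →
  (1 - 50 * Real.log n ^ (-(2 / 3) : ℝ)) *
      (lam N (N + 1) (ball (0 : E N) r) - lam N 1 (ball (0 : E N) r)) ≤
    lam N n Ω - lam N 1 (ball (0 : E N) r)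

/-- hand-in B -/
def T_MB : Prop := ∃ n₀ : ℕ, ∀ (N n : ℕ) (r : ℝ) (Ω : Set (E N)), n₀ ≤ n → n ≤ N + 1 → 0 < r →
  IsOpen Ω → volume Ω = volume (ball (0 : E N) r) →
  (∀ Ω' : Set (E N), IsOpen Ω' → volume Ω' = volume (ball (0 : E N) r) →
    lam N n Ω ≤ lam N n Ω') →
  IsConnected Ω

end Pool.Agent.H85.LK
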