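import Pool.Agent.H85.LK.Targets

set_option autoImplicit false

open MeasureTheory Metric Set ProbabilityTheory
open scoped ENNReal

namespace Pool.Agent.H85.LK

/-- volume of a centred ball -/
lemma vol_ball (N : ℕ) (ρ : ℝ) (hρ : 0 < ρ) :
    volume.real (ball (0 : E N) ρ) = ρ ^ N * volume.real (ball (0 : E N) 1) := by
  have h := Measure.addHaar_ball_of_pos (volume : Measure (E N)) (0 : E N) hρ
  rw [Measure.real, h, ENNReal.toReal_mul, ENNReal.toReal_ofReal (by positivity)]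
  simp [Measure.real]

lemma vol_ball_pos (N : ℕ) (ρ : ℝ) (hρ : 0 < ρ) : 0 < volume.real (ball (0 : E N) ρ) := by
  rw [Measure.real]
  exact ENNReal.toReal_pos (measure_ball_pos _ _ hρ).ne' measure_ball_lt_top.ne

/-- pointwise inequality -/
lemma pw_ineq (N : ℕ) (hN : 1 ≤ N) (y m₀ : ℝ) (hy : 0 < y) (hm : 0 < m₀) :
    1 + 2 / (N : ℝ) * (1 + Real.log (1 / m₀) - y / m₀) ≤ (y ^ ((1 : ℝ) / N)) ^ (-2 : ℝ) := by
  have hN' : (0 : ℝ) < N := by exact_mod_cast hN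
  have h1 : (y ^ ((1 : ℝ) / N)) ^ (-2 : ℝ) = Real.exp (-(2 / N) * Real.log y) := by
    rw [← Real.rpow_mul hy.le, Real.rpow_def_of_pos hy]
    congr 1
    field_simp
  rw [h1]
  have h2 := Real.add_one_le_exp (-(2 / N) * Real.log y)
  have h3 : Real.log y ≤ Real.log m₀ + y / m₀ - 1 := by
    have := Real.log_le_sub_one_of_pos (div_pos hy hm)
    rw [Real.log_div hy.ne' hm.ne'] at this
    linarith
  have h4 : Real.log (1 / m₀) = - Real.log m₀ := by
    rw [one_div, Real.log_inv]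
  rw [h4]
  have h5 : 2 / (N : ℝ) * (1 + -Real.log m₀ - y / m₀) ≤ 2 / (N : ℝ) * (-Real.log y) := by
    apply mul_le_mul_of_nonneg_left _ (by positivity)
    linarith
  linarith

/-- radius from volume fraction -/
lemma rad_fact (N : ℕ) (hN : 1 ≤ N) (r y K m₀ : ℝ) (hr : 0 < r) (hy : 0 < y) (hK : 0 ≤ K)
    (hm : 0 < m₀) :
    0 < r * y ^ ((1 : ℝ) / N) ∧ (r * y ^ ((1 : ℝ) / N)) ^ N = r ^ N * y ∧
    K / r ^ 2 * (1 + 2 / (N : ℝ) * (1 + Real.log (1 / m₀) - y / m₀)) ≤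
      K / (r * y ^ ((1 : ℝ) / N)) ^ 2 := by
  have hN' : (0 : ℝ) < N := by exact_mod_cast hN
  have h0 : 0 < y ^ ((1 : ℝ) / N) := Real.rpow_pos_of_pos hy _
  refine ⟨by positivity, ?_, ?_⟩
  · rw [mul_pow]
    congr 1
    rw [← Real.rpow_natCast, ← Real.rpow_mul hy.le]
    rw [one_div, inv_mul_cancel₀ hN'.ne', Real.rpow_one]
  · have h1 := pw_ineq N hN y m₀ hy hm
    have h2 : K / (r * y ^ ((1 : ℝ) / N)) ^ 2 = K / r ^ 2 * (y ^ ((1 : ℝ) / N)) ^ (-2 : ℝ) := by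
      rw [Real.rpow_neg h0.le, mul_pow]
      have : (y ^ ((1 : ℝ) / N)) ^ (2 : ℝ) = (y ^ ((1 : ℝ) / N)) ^ 2 := by
        rw [← Real.rpow_natCast]; norm_num
      rw [this]
      field_simp
    rw [h2]
    exact mul_le_mul_of_nonneg_left h1 (by positivity)

/-- the vector field made of `n` functions -/
noncomputable def vf {N n : ℕ} (ψ : Fin n → E N → ℝ) (x : E N) : E n := WithLp.toLp 2 (fun i => ψ i x)

@[simp] lemma vf_apply {N n : ℕ} (ψ : Fin n → E N → ℝ) (x : E N) (i : Fin n) :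
    vf ψ x i = ψ i x := rfl

lemma vf_cont {N n : ℕ} (ψ : Fin n → E N → ℝ) (h : ∀ i, Continuous (ψ i)) :
    Continuous (vf ψ) := by
  unfold vf
  exact (PiLp.continuous_toLp 2 _).comp (continuous_pi h)

lemma vf_ne {N n : ℕ} (ψ : Fin n → E N → ℝ) (x : E N) (h : vf ψ x ≠ 0) : ∃ i, ψ i x ≠ 0 := by
  by_contra hcon
  push Not at hcon
  apply h
  ext i
  simp [hcon i]

lemma vf_cs {N n : ℕ} (ψ : Fin n → E N → ℝ) (h : ∀ i, HasCompactSupport (ψ i)) :
    HasCompactSupport (vf ψ) := by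
  have hK : IsCompact (⋃ i, tsupport (ψ i)) := isCompact_iUnion h
  apply HasCompactSupport.intro hK
  intro x hx
  by_contra hcon
  obtain ⟨i, hi⟩ := vf_ne ψ x hcon
  apply hx
  rw [mem_iUnion]
  exact ⟨i, subset_tsupport _ hi⟩

lemma vf_facts {N n : ℕ} (Ω : Set (E N)) (ψ : Fin n → E N → ℝ) (h1 : ∀ i, Continuous (ψ i))
    (h2 : ∀ i, HasCompactSupport (ψ i)) (h3 : ∀ i, tsupport (ψ i) ⊆ Ω) :
    IsOpen {x | vf ψ x ≠ 0} ∧ Bornology.IsBounded {x | vf ψ x ≠ 0} ∧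
    {x | vf ψ x ≠ 0} ⊆ Ω ∧ BdV {x | vf ψ x ≠ 0} (vf ψ) := by
  have hc := vf_cont ψ h1
  have hs := vf_cs ψ h2
  refine ⟨?_, ?_, ?_, ?_, ?_, ?_⟩
  · exact isOpen_ne_fun hc continuous_const
  · exact hs.isCompact.isBounded.subset (fun x hx => subset_tsupport _ hx)
  · intro x hx
    obtain ⟨i, hi⟩ := vf_ne ψ x hx
    exact h3 i (subset_tsupport _ hi)
  · exact hc.measurable
  · obtain ⟨C, hC⟩ := hc.bounded_above_of_compact_support hs
    exact ⟨C, hC⟩
  · intro x hx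
    by_contra hcon
    exact hx hcon

lemma vf_norm_sq {N n : ℕ} (ψ : Fin n → E N → ℝ) (x : E N) :
    ‖vf ψ x‖ ^ 2 = ∑ i, ψ i x * ψ i x := by
  rw [EuclideanSpace.norm_sq_eq]
  apply Finset.sum_congr rfl
  intro i _
  simp [sq]

lemma vf_mass {N n : ℕ} (ψ : Fin n → E N → ℝ) (h1 : ∀ i, Continuous (ψ i))
    (h2 : ∀ i, HasCompactSupport (ψ i))
    (ho : ∀ i j, ∫ x, ψ i x * ψ j x = if i = j then (1 : ℝ) else 0) :
    ∫ x, ‖vf ψ x‖ ^ 2 = n := by
  simp_rw [vf_norm_sq]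
  rw [integral_finsetSum]
  · simp [ho]
  · intro i _
    exact ((h1 i).mul (h1 i)).integrable_of_hasCompactSupport ((h2 i).mul_left)

lemma key (hFKL : T_FKL) (hENL : T_ENL) (hFL1 : T_FL1) (hFL2 : T_FL2) (hFL3 : T_FL3)
    (hMEA : T_MEA)
    (N n : ℕ) (r b l c : ℝ) (Ω : Set (E N)) (hN : 1 ≤ N) (hn : 1 ≤ n) (hr : 0 < r) (hb : 1 ≤ b)
    (hl : 0 < l) (hvol : volume Ω = volume (ball (0 : E N) r))
    (hMD : M2 b l ≤ DD b l) (hM : 0 < M2 b l)
    (ψ : Fin n → E N → ℝ) (h1 : ∀ i, ContDiff ℝ (⊤ : ℕ∞) (ψ i))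
    (h2 : ∀ i, HasCompactSupport (ψ i)) (h3 : ∀ i, tsupport (ψ i) ⊆ Ω)
    (h4 : ∀ i, ∫ x, ‖fderiv ℝ (ψ i) x‖ ^ 2 ≤ c * ∫ x, ψ i x ^ 2)
    (ho : ∀ i j, ∫ x, ψ i x * ψ j x = if i = j then (1 : ℝ) else 0)
    (K ε m₀ : ℝ) (hK0 : 0 ≤ K) (hK : K < lam N 1 (ball (0 : E N) 1)) (hε : 0 < ε) (hε1 : ε ≤ 1)
    (hm : m₀ = Real.exp (1 - b ^ 2 / 2) + (b + l) ^ 4 / n) :
    K / r ^ 2 * (DD b l + M2 b l * (2 / N * (Real.log (1 / m₀) - ε / m₀))) ≤ DD b l * c := by
  have hN' : (0 : ℝ) < N := by exact_mod_cast hN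
  have hn' : (0 : ℝ) < n := by exact_mod_cast hn
  have hb0 : 0 < b := by linarith
  have hm0 : 0 < m₀ := by rw [hm]; positivity
  obtain ⟨s₀, hs0, hF⟩ := hFKL N K hN hK
  have hcont : ∀ i, Continuous (ψ i) := fun i => (h1 i).continuous
  obtain ⟨hAo, hAb, hAΩ, hAV⟩ := vf_facts Ω ψ hcont h2 h3
  set A : Set (E N) := {x | vf ψ x ≠ 0} with hA
  have hAm : MeasurableSet A := hAo.measurableSet
  have hAvol : volume A ≤ volume (ball (0 : E N) r) := hvol ▸ measure_mono hAΩ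
  have hWpos := vol_ball_pos N r hr
  set W := volume.real (ball (0 : E N) r) with hW
  have hAW : volume.real A ≤ W :=
    ENNReal.toReal_mono measure_ball_lt_top.ne hAvol
  have hε' : 0 < ε ^ ((1 : ℝ) / N) := Real.rpow_pos_of_pos hε _
  set s := s₀ * (r * ε ^ ((1 : ℝ) / N)) ^ 2 with hs
  have hspos : 0 < s := by positivity
  have hsr : s ≤ s₀ * r ^ 2 := by
    have : ε ^ ((1 : ℝ) / N) ≤ 1 := Real.rpow_le_one hε.le hε1 (by positivity)
    rw [hs]
    apply mul_le_mul_of_nonneg_left _ hs0.le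
    apply pow_le_pow_left₀ (by positivity)
    nlinarith
  -- mass
  have hmass : ∫ x, ‖vf ψ x‖ ^ 2 = n := vf_mass ψ hcont h2 ho
  -- X
  have hBdn : Bd A (fun x => ‖vf ψ x‖) := by
    obtain ⟨hm1, ⟨Mb, hMb⟩, hz⟩ := hAV
    refine ⟨hm1.norm, ⟨Mb, fun x => ?_⟩, fun x hx => ?_⟩
    · rw [abs_of_nonneg (norm_nonneg _)]; exact hMb x
    · simp [hz x hx]
  have hX := hF r s A (fun x => ‖vf ψ x‖) hr hspos hsr hAm hAb hAvol hBdn
  rw [hmass] at hX
  set X := (n : ℝ) - Qf N s (fun x => ‖vf ψ x‖) with hXdef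
  -- Y
  have hY : ∑ i, ((∫ x, vf ψ x i ^ 2) - Qf N s (fun x => vf ψ x i)) ≤ s * (n * c) := by
    have : ∀ i ∈ (Finset.univ : Finset (Fin n)),
        ((∫ x, vf ψ x i ^ 2) - Qf N s (fun x => vf ψ x i)) ≤ s * c := by
      intro i _
      have e1 := hENL N s (ψ i) hspos (h1 i) (h2 i)
      have e2 := h4 i
      have e3 : ∫ x, ψ i x ^ 2 = 1 := by
        have := ho i i
        simp only [if_true] at this
        rw [← this]
        congr 1
        ext x
        ring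
      rw [e3, mul_one] at e2
      calc ((∫ x, vf ψ x i ^ 2) - Qf N s (fun x => vf ψ x i)) ≤ s * ∫ x, ‖fderiv ℝ (ψ i) x‖ ^ 2 := e1
        _ ≤ s * c := mul_le_mul_of_nonneg_left e2 hspos.le
    calc _ ≤ ∑ _i : Fin n, s * c := Finset.sum_le_sum this
      _ = s * (n * c) := by simp; ring
  set Y := ∑ i, ((∫ x, vf ψ x i ^ 2) - Qf N s (fun x => vf ψ x i)) with hYdef
  obtain ⟨hFa, hFb⟩ := hFL1 N n b l s A (vf ψ) hb0 hl hMD hspos hAm hAb hAV
  rw [hmass] at hFb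
  obtain ⟨hGa, hGb⟩ := hFL2 N n b l A (vf ψ) hb0 hl hAm hAb hAV
  rw [hmass] at hGb
  obtain ⟨hHa, hHb⟩ := hFL3 N n b l A (vf ψ) hb hl hAm hAb hAV ho
  obtain ⟨-, -, hBg, -, hreg⟩ := hMEA N n b l A (vf ψ) hb0 hl hAm hAV
  set I : E n → ℝ := fun g => ∫ x, GG b l g (vf ψ x) ^ 2 with hI
  set L := Real.log (1 / m₀) with hL
  set a := K / r ^ 2 * (1 + 2 / N * (1 + L - ε / m₀)) with ha
  set β := K / r ^ 2 * (2 / N) / (m₀ * W) with hβ
  have hβ0 : 0 ≤ β := by positivity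
  have hpt : ∀ g : E n, a * I g - β * (volume.real (reg b (vf ψ) g) * I g) ≤
      (I g - Qf N s (fun x => GG b l g (vf ψ x))) / s := by
    intro g
    have hI0 : 0 ≤ I g := integral_nonneg (fun x => sq_nonneg _)
    obtain ⟨hrm, -, hrA⟩ := hreg g
    set xg := volume.real (reg b (vf ψ) g) / W with hxg
    have hxg0 : 0 ≤ xg := by positivity
    set y := max xg ε with hy
    have hy0 : 0 < y := lt_of_lt_of_le hε (le_max_right _ _)
    obtain ⟨hρ0, hρN, hρK⟩ := rad_fact N hN r y K m₀ hr hy0 hK0 hm0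
    set ρ := r * y ^ ((1 : ℝ) / N) with hρ
    have hsρ : s ≤ s₀ * ρ ^ 2 := by
      rw [hs]
      apply mul_le_mul_of_nonneg_left _ hs0.le
      apply pow_le_pow_left₀ (by positivity)
      rw [hρ]
      apply mul_le_mul_of_nonneg_left _ hr.le
      exact Real.rpow_le_rpow hε.le (le_max_right _ _) (by positivity)
    have hregb : Bornology.IsBounded (reg b (vf ψ) g) := hAb.subset hrA
    have hvr : volume (reg b (vf ψ) g) ≤ volume (ball (0 : E N) ρ) := by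
      have hfin : volume (reg b (vf ψ) g) ≠ ∞ :=
        ((measure_mono hrA).trans_lt (hAvol.trans_lt measure_ball_lt_top)).ne
      rw [← ENNReal.toReal_le_toReal hfin measure_ball_lt_top.ne]
      change volume.real _ ≤ volume.real _
      rw [vol_ball N ρ hρ0, hρN]
      have e1 : volume.real (reg b (vf ψ) g) = xg * W := by
        rw [hxg]; field_simp
      rw [e1, hW, vol_ball N r hr]
      have e2 : xg ≤ y := le_max_left _ _
      have e3 : 0 < volume.real (ball (0 : E N) 1) := vol_ball_pos N 1 one_pos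
      calc xg * (r ^ N * volume.real (ball (0 : E N) 1))
          ≤ y * (r ^ N * volume.real (ball (0 : E N) 1)) :=
            mul_le_mul_of_nonneg_right e2 (by positivity)
        _ = r ^ N * y * volume.real (ball (0 : E N) 1) := by ring
    have hmain := hF ρ s (reg b (vf ψ) g) (fun x => GG b l g (vf ψ x)) hρ0 hspos hsρ hrm hregb hvr
      (hBg g).1
    refine le_trans ?_ hmain
    change a * I g - β * (volume.real (reg b (vf ψ) g) * I g) ≤ K / ρ ^ 2 * I g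
    have hyx : y ≤ xg + ε := max_le (by linarith) (by linarith)
    have e5 : a * I g - β * (volume.real (reg b (vf ψ) g) * I g) =
        K / r ^ 2 * (1 + 2 / N * (1 + L - (xg + ε) / m₀)) * I g := by
      rw [ha, hβ, hxg]; field_simp; ring
    rw [e5]
    apply mul_le_mul_of_nonneg_right _ hI0
    refine le_trans ?_ hρK
    apply mul_le_mul_of_nonneg_left _ (by positivity)
    have : (y : ℝ) / m₀ ≤ (xg + ε) / m₀ := div_le_div_of_nonneg_right hyx hm0.le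
    have h2N : (0 : ℝ) ≤ 2 / N := by positivity
    have := mul_le_mul_of_nonneg_left this h2N
    have e6 : 2 / (N : ℝ) * (1 + L - (xg + ε) / m₀) = 2 / N * (1 + L) - 2 / N * ((xg + ε) / m₀) := by
      ring
    have e7 : 2 / (N : ℝ) * (1 + L - y / m₀) = 2 / N * (1 + L) - 2 / N * (y / m₀) := by ring
    rw [e6, e7]
    linarith
  -- integrate
  have hint := integral_mono (μ := stdGaussian (E n))
    (f := fun g => a * I g - β * (volume.real (reg b (vf ψ) g) * I g))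
    (g := fun g => (I g - Qf N s (fun x => GG b l g (vf ψ x))) / s)
    ((hGa.const_mul a).sub (hHa.const_mul β)) (hFa.div_const s) hpt
  rw [integral_sub (hGa.const_mul a) (hHa.const_mul β), integral_const_mul, integral_const_mul,
    integral_div] at hint
  rw [hGb] at hint
  -- bounds
  have hE : volume.real A * (M2 b l * (n * Real.exp (1 - b ^ 2 / 2) + (b + l) ^ 4)) ≤
      W * (M2 b l * (n * m₀)) := by
    have : (n : ℝ) * Real.exp (1 - b ^ 2 / 2) + (b + l) ^ 4 = n * m₀ := by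
      rw [hm]; field_simp
    rw [this]
    exact mul_le_mul_of_nonneg_right hAW (by positivity)
  have hH := hHb.trans hE
  have hβH := mul_le_mul_of_nonneg_left hH hβ0
  have e8 : β * (W * (M2 b l * (n * m₀))) = K / r ^ 2 * (2 / N) * (M2 b l * n) := by
    rw [hβ]; field_simp
  rw [e8] at hβH
  have hR : (∫ c, ((∫ x, GG b l c (vf ψ x) ^ 2) - Qf N s (fun x => GG b l c (vf ψ x)))
      ∂(stdGaussian (E n))) / s ≤ (M2 b l - DD b l) * (K / r ^ 2 * n) + DD b l * (n * c) := by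
    rw [div_le_iff₀ hspos]
    refine hFb.trans ?_
    have e9 : K / r ^ 2 * n * s ≤ X := by
      rw [← le_div_iff₀ hspos]; exact hX
    have e10 : (M2 b l - DD b l) * X ≤ (M2 b l - DD b l) * (K / r ^ 2 * n * s) :=
      mul_le_mul_of_nonpos_left e9 (by linarith)
    have e11 : DD b l * Y ≤ DD b l * (s * (n * c)) :=
      mul_le_mul_of_nonneg_left hY (by linarith)
    nlinarith [e10, e11]
  have hfin : a * (M2 b l * n) - K / r ^ 2 * (2 / N) * (M2 b l * n) ≤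
      (M2 b l - DD b l) * (K / r ^ 2 * n) + DD b l * (n * c) := by
    refine le_trans ?_ (hint.trans hR)
    linarith
  have e12 : a * (M2 b l * n) - K / r ^ 2 * (2 / N) * (M2 b l * n) =
      n * (K / r ^ 2 * (M2 b l + M2 b l * (2 / N * (L - ε / m₀)))) := by
    rw [ha]; ring
  rw [e12] at hfin
  have e13 : (M2 b l - DD b l) * (K / r ^ 2 * n) + DD b l * (n * c) =
      n * ((M2 b l - DD b l) * (K / r ^ 2) + DD b l * c) := by ring
  rw [e13] at hfin
  have hfin2 := le_of_mul_le_mul_left hfin hn'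
  have e14 : K / r ^ 2 * (DD b l + M2 b l * (2 / N * (L - ε / m₀))) =
      K / r ^ 2 * (M2 b l + M2 b l * (2 / N * (L - ε / m₀))) -
        (M2 b l - DD b l) * (K / r ^ 2) := by ring
  rw [e14]
  linarith

theorem pf_ASM (hFKL : T_FKL) (hENL : T_ENL) (hONB : T_ONB) (hFL1 : T_FL1) (hFL2 : T_FL2)
    (hFL3 : T_FL3) (hMEA : T_MEA) (hCHI : T_CHI) (hPI : T_PI) : T_ASM := by
  intro N n r b c Ω hN hn hr hb hΩ hvol hc
  obtain ⟨V, hV, hVp⟩ := hc
  obtain ⟨ψ, hψV, ho⟩ := hONB N n V hn hV (fun v hv => ⟨(hVp v hv).1.continuous, (hVp v hv).2.1⟩)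
  obtain ⟨hM, hMD, -⟩ := hCHI b hb
  set l : ℝ := b ^ (-(1 / 3) : ℝ) with hl
  have hl0 : 0 < l := Real.rpow_pos_of_pos (by linarith) _
  set m₀ : ℝ := Real.exp (1 - b ^ 2 / 2) + (b + l) ^ 4 / n with hm
  have hΛ := hPI N hN
  set Λ := lam N 1 (ball (0 : E N) 1) with hΛd
  have hk : ∀ δ : ℝ, 0 < δ → δ < 1 →
      (Λ * (1 - δ)) / r ^ 2 * (DD b l + M2 b l * (2 / N * (Real.log (1 / m₀) - δ / m₀))) ≤
        DD b l * c := by
    intro δ h0 h1
    exact key hFKL hENL hFL1 hFL2 hFL3 hMEA N n r b l c Ω hN hn hr hb hl0 hvol hMD hM ψ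
      (fun i => (hVp _ (hψV i)).1) (fun i => (hVp _ (hψV i)).2.1) (fun i => (hVp _ (hψV i)).2.2.1)
      (fun i => (hVp _ (hψV i)).2.2.2) ho (Λ * (1 - δ)) δ m₀ (mul_nonneg hΛ.le (by linarith))
      (by nlinarith) h0 h1.le hm
  have hcont : Continuous (fun δ : ℝ =>
      (Λ * (1 - δ)) / r ^ 2 * (DD b l + M2 b l * (2 / N * (Real.log (1 / m₀) - δ / m₀)))) := by
    fun_prop
  have hlim := (hcont.tendsto 0).mono_left (nhdsWithin_le_nhds (s := Ioi (0 : ℝ)))
  have hle : (Λ * (1 - 0)) / r ^ 2 * (DD b l + M2 b l * (2 / N * (Real.log (1 / m₀) - 0 / m₀))) ≤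
      DD b l * c := by
    apply le_of_tendsto hlim
    filter_upwards [Ioo_mem_nhdsGT (zero_lt_one (α := ℝ))] with δ hδ
    exact hk δ hδ.1 hδ.2
  have hD : 0 < DD b l := lt_of_lt_of_le hM hMD
  have e1 : (Λ * (1 - 0)) / r ^ 2 * (DD b l + M2 b l * (2 / N * (Real.log (1 / m₀) - 0 / m₀))) =
      DD b l * (Λ / r ^ 2 * (1 + 2 / N * (M2 b l / DD b l) * Real.log (1 / m₀))) := by
    field_simp
    ring
  rw [e1] at hle
  exact le_of_mul_le_mul_left hle hD

end Pool.Agent.H85.LK
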