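import Pool.Agent.H85.LK.Targets

set_option autoImplicit false

open MeasureTheory Metric Set ProbabilityTheory
open scoped ENNReal

namespace Pool.Agent.H85.LK

theorem pf_MA (hTHI : T_THI) (hBUD : T_BUD) (hFK : T_FK) (hSCL : T_SCL) (hPI : T_PI)
    (hNE : T_NE) : T_MA := by
  intro N n r Ω hN hn hnN hr hΩ hvol
  have hN' : (3 : ℝ) ≤ N := by exact_mod_cast hN
  have hΛ := hPI N (by omega)
  have hB := hBUD N hN
  have hT := hTHI N n r Ω (by omega) hn hr hΩ hvol
  have hne : ∀ m : ℕ, ∀ Ω' : Set (E N), IsOpen Ω' →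
      volume Ω' = volume (ball (0 : E N) r) → 1 ≤ m →
      lam N 1 (ball (0 : E N) 1) / r ^ 2 ≤ lam N m Ω' := by
    intro m Ω' hΩ' hv hm
    have hne : Ω'.Nonempty := by
      rw [nonempty_iff_ne_empty]
      rintro rfl
      rw [measure_empty] at hv
      exact (measure_ball_pos volume (0 : E N) hr).ne hv
    apply le_csInf (hNE N m Ω' (by omega) hΩ' hne)
    intro c hc
    exact hFK N m r c Ω' (by omega) hm hr hΩ' hv.le hc
  have h1 := hne n Ω hΩ hvol (by omega)
  have h2 := hne (N + 1) (ball 0 r) isOpen_ball rfl (by omega)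
  rw [(hSCL N 1 r hr).2.2] at hT ⊢
  rw [(hSCL N (N + 1) r hr).2.2] at h2 ⊢
  set Λ := lam N 1 (ball (0 : E N) 1) with hΛd
  set Λ' := lam N (N + 1) (ball (0 : E N) 1) with hΛd'
  set x : ℝ := Real.log n ^ (-(2 / 3) : ℝ) with hx
  have hr2 : 0 < r ^ 2 := by positivity
  have hΔ : 0 ≤ Λ' / r ^ 2 - Λ / r ^ 2 := by linarith
  by_cases hc : 1 - 50 * x ≤ 0
  · have := mul_nonpos_of_nonpos_of_nonneg hc hΔ
    linarith
  · push Not at hc
    have hnpos : (1 : ℝ) < n := by exact_mod_cast (by omega : 1 < n)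
    have hL : 0 < Real.log n := Real.log_pos hnpos
    have hx0 : 0 < x := Real.rpow_pos_of_pos hL _
    -- log n is large and at most log (N+1)
    have hxL : x ^ (-(3 / 2) : ℝ) = Real.log n := by
      rw [hx, ← Real.rpow_mul hL.le]
      norm_num
    have hx50 : x < 1 / 50 := by linarith
    -- N is large compared with 1/x
    have hNx : 4 / (N : ℝ) ≤ x / 2 := by
      have e1 : Real.log n ≤ Real.log ((N : ℝ) + 1) := by
        apply Real.log_le_log (by linarith)
        exact_mod_cast hnN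
      have e2 : Real.log ((N : ℝ) + 1) ≥ Real.log n := e1
      -- exp (log n) >= (log n)^4/24
      have e3 : Real.log n ^ 4 / 24 ≤ n := by
        have h := Real.pow_div_factorial_le_exp (Real.log n) hL.le 4
        rw [Real.exp_log (by linarith)] at h
        have : ((Nat.factorial 4 : ℕ) : ℝ) = 24 := by norm_num [Nat.factorial]
        rw [this] at h
        exact h
      -- x >= 1/log n
      have e4 : 1 ≤ Real.log n := by
        by_contra hcon
        push Not at hcon
        have : 1 ≤ x := by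
          rw [hx]
          exact Real.one_le_rpow_of_pos_of_le_one_of_nonpos hL hcon.le (by norm_num)
        linarith
      have e5 : 1 / Real.log n ≤ x := by
        rw [one_div, ← Real.rpow_neg_one, hx]
        exact Real.rpow_le_rpow_of_exponent_le e4 (by norm_num)
      have e6 : 50 ≤ Real.log n := by
        have : 1 / Real.log n < 1 / 50 := lt_of_le_of_lt e5 hx50
        rw [one_div_lt_one_div hL (by norm_num)] at this
        exact this.le
      have e7 : (n : ℝ) ≤ N + 1 := by exact_mod_cast hnN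
      have e8 : 8 * Real.log n ≤ N := by
        have e9 : 8 * Real.log n + 1 ≤ Real.log n ^ 4 / 24 := by
          nlinarith [pow_le_pow_left₀ (by norm_num : (0 : ℝ) ≤ 50) e6 3,
            mul_pos hL hL, pow_pos hL 3]
        linarith
      have e10 : 4 / (N : ℝ) ≤ 1 / (2 * Real.log n) := by
        rw [div_le_div_iff₀ (by linarith) (by positivity)]
        linarith
      calc 4 / (N : ℝ) ≤ 1 / (2 * Real.log n) := e10
        _ = (1 / Real.log n) / 2 := by field_simp
        _ ≤ x / 2 := by linarith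
    have hN8 : (100 : ℝ) ≤ N := by
      have h50 : x / 2 ≤ 1 / 100 := by linarith
      have : 4 / (N : ℝ) ≤ 1 / 100 := hNx.trans h50
      rw [div_le_div_iff₀ (by linarith) (by norm_num)] at this
      linarith
    -- main comparison
    have hΔ2 : Λ' / r ^ 2 - Λ / r ^ 2 ≤
        Λ / r ^ 2 * (4 * ((N : ℝ) - 1) / ((N : ℝ) - 2) ^ 2) := by
      rw [← sub_div, div_mul_eq_mul_div]
      apply div_le_div_of_nonneg_right _ hr2.le
      linarith
    have hcmp : (1 - 50 * x) * (4 * ((N : ℝ) - 1) / ((N : ℝ) - 2) ^ 2) ≤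
        4 / N * (1 - 48 * x) := by
      have hN2 : (0 : ℝ) < ((N : ℝ) - 2) ^ 2 := by nlinarith
      rw [mul_div_assoc', div_mul_eq_mul_div, div_le_div_iff₀ hN2 (by linarith)]
      have hNx' : 8 ≤ x * N := by
        rw [div_le_iff₀ (by linarith)] at hNx
        linarith
      nlinarith [mul_nonneg hx0.le (by linarith : (0 : ℝ) ≤ N)]
    have hΛr : 0 ≤ Λ / r ^ 2 := by positivity
    calc (1 - 50 * x) * (Λ' / r ^ 2 - Λ / r ^ 2)
        ≤ (1 - 50 * x) * (Λ / r ^ 2 * (4 * ((N : ℝ) - 1) / ((N : ℝ) - 2) ^ 2)) :=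
          mul_le_mul_of_nonneg_left hΔ2 hc.le
      _ = Λ / r ^ 2 * ((1 - 50 * x) * (4 * ((N : ℝ) - 1) / ((N : ℝ) - 2) ^ 2)) := by ring
      _ ≤ Λ / r ^ 2 * (4 / N * (1 - 48 * x)) := mul_le_mul_of_nonneg_left hcmp hΛr
      _ ≤ lam N n Ω - Λ / r ^ 2 := by linarith

end Pool.Agent.H85.LK
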