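import Pool.Agent.H85.LK.Targets

set_option autoImplicit false

open MeasureTheory Metric Set ProbabilityTheory
open scoped ENNReal

namespace Pool.Agent.H85.LK

lemma mb_lam_le (hAP : T_AP) {N n : ℕ} {Ω : Set (E N)} {c : ℝ} (hn : 1 ≤ n)
    (hc : c ∈ adm N n Ω) : lam N n Ω ≤ c :=
  csInf_le ⟨0, fun _ h => hAP N n Ω _ hn h⟩ hc

lemma mb_fk (hFK : T_FK) (hNE : T_NE) {N n : ℕ} {r : ℝ} {Ω : Set (E N)} (hN : 1 ≤ N)
    (hn : 1 ≤ n) (hr : 0 < r) (hΩ : IsOpen Ω) (hne : Ω.Nonempty)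
    (hv : volume Ω = volume (ball (0 : E N) r)) :
    lam N 1 (ball (0 : E N) 1) / r ^ 2 ≤ lam N n Ω := by
  apply le_csInf (hNE N n Ω hN hΩ hne)
  intro c hc
  exact hFK N n r c Ω hN hn hr hΩ hv.le hc

lemma mb_vol (N : ℕ) (ρ : ℝ) (hρ : 0 < ρ) :
    volume (ball (0 : E N) ρ) = ENNReal.ofReal (ρ ^ N) * volume (ball (0 : E N) 1) := by
  have h := Measure.addHaar_ball_of_pos (volume : Measure (E N)) (0 : E N) hρ
  rw [h]
  simp

lemma mb_rad {N : ℕ} (hN : 1 ≤ N) (Ω : Set (E N)) (hΩ : IsOpen Ω) (hne : Ω.Nonempty)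
    (hfin : volume Ω ≠ ∞) : ∃ ρ : ℝ, 0 < ρ ∧ volume Ω = volume (ball (0 : E N) ρ) := by
  have hN' : (0 : ℝ) < N := by exact_mod_cast hN
  have hpos : 0 < volume.real Ω := ENNReal.toReal_pos (hΩ.measure_pos _ hne).ne' hfin
  have hωf : volume (ball (0 : E N) 1) ≠ ∞ := measure_ball_lt_top.ne
  have hω : 0 < volume.real (ball (0 : E N) 1) :=
    ENNReal.toReal_pos (measure_ball_pos _ _ one_pos).ne' hωf
  have hq : 0 < volume.real Ω / volume.real (ball (0 : E N) 1) := by positivity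
  refine ⟨(volume.real Ω / volume.real (ball (0 : E N) 1)) ^ ((1 : ℝ) / N),
    Real.rpow_pos_of_pos hq _, ?_⟩
  rw [mb_vol N _ (Real.rpow_pos_of_pos hq _)]
  rw [← Real.rpow_natCast, ← Real.rpow_mul hq.le, one_div, inv_mul_cancel₀ hN'.ne', Real.rpow_one]
  rw [← ENNReal.toReal_eq_toReal_iff' hfin (ENNReal.mul_ne_top ENNReal.ofReal_ne_top hωf)]
  rw [ENNReal.toReal_mul, ENNReal.toReal_ofReal hq.le]
  change volume.real Ω = volume.real Ω / volume.real (ball (0 : E N) 1) *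
    volume.real (ball (0 : E N) 1)
  field_simp

/-- volumes in terms of radii -/
lemma mb_sum {N : ℕ} {r ρ₁ ρ₂ : ℝ} (hr : 0 < r) (h1 : 0 < ρ₁) (h2 : 0 < ρ₂)
    (h : volume (ball (0 : E N) ρ₁) + volume (ball (0 : E N) ρ₂) = volume (ball (0 : E N) r)) :
    ρ₁ ^ N + ρ₂ ^ N = r ^ N := by
  rw [mb_vol N r hr, mb_vol N ρ₁ h1, mb_vol N ρ₂ h2, ← add_mul,
    ← ENNReal.ofReal_add (by positivity) (by positivity)] at h
  have hω0 : volume (ball (0 : E N) 1) ≠ 0 := (measure_ball_pos _ _ one_pos).ne'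
  have hωf : volume (ball (0 : E N) 1) ≠ ∞ := measure_ball_lt_top.ne
  have h' := (ENNReal.mul_left_inj hω0 hωf).1 h
  rwa [ENNReal.ofReal_eq_ofReal_iff (by positivity) (by positivity)] at h'

/-- if a piece had first eigenvalue above `L`, it could be dropped -/
lemma mb_piece (hDU : T_DU) (hSCL : T_SCL) (hFK : T_FK) (hMON : T_MON) (hPI : T_PI)
    (hNE : T_NE) (hAP : T_AP) {N n : ℕ} {r ρ₁ ρ₂ : ℝ} {Ω₁ Ω₂ : Set (E N)} (hN : 1 ≤ N)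
    (hn : 1 ≤ n) (hr : 0 < r) (h1 : IsOpen Ω₁) (h2 : IsOpen Ω₂) (hd : Disjoint Ω₁ Ω₂)
    (hne1 : Ω₁.Nonempty)
    (hρ1 : 0 < ρ₁) (hρ2 : 0 < ρ₂) (hv1 : volume Ω₁ = volume (ball (0 : E N) ρ₁))
    (hv : volume (Ω₁ ∪ Ω₂) = volume (ball (0 : E N) r)) (hs : ρ₁ ^ N + ρ₂ ^ N = r ^ N)
    (hmin : ∀ Ω' : Set (E N), IsOpen Ω' → volume Ω' = volume (ball (0 : E N) r) →
      lam N n (Ω₁ ∪ Ω₂) ≤ lam N n Ω') :
    lam N 1 Ω₂ ≤ lam N n (Ω₁ ∪ Ω₂) := by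
  by_contra hcon
  push Not at hcon
  have hΛ := hPI N hN
  have hneU : (Ω₁ ∪ Ω₂).Nonempty := hne1.mono subset_union_left
  have hL := mb_fk hFK hNE hN hn hr (h1.union h2) hneU hv
  have hLpos : 0 < lam N n (Ω₁ ∪ Ω₂) := lt_of_lt_of_le (by positivity) hL
  set L := lam N n (Ω₁ ∪ Ω₂) with hLd
  have h3 : lam N n Ω₁ ≤ L := by
    apply le_of_forall_gt_imp_ge_of_dense
    intro c' hc'
    obtain ⟨c, hc, hlt⟩ := exists_lt_of_csInf_lt (hNE N n _ hN (h1.union h2) hneU)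
      (lt_min hc' hcon)
    obtain ⟨n₁, n₂, hnn, hc1, hc2⟩ := hDU N n Ω₁ Ω₂ c h1 h2 hd hn hc
    rcases Nat.eq_zero_or_pos n₂ with h0 | h0
    · subst h0
      rw [add_zero] at hnn
      subst hnn
      exact (mb_lam_le hAP hn hc1).trans (hlt.le.trans (min_le_left _ _))
    · have hc3 := hMON N 1 n₂ Ω₂ Ω₂ h0 subset_rfl hc2
      have := mb_lam_le hAP le_rfl hc3
      have := lt_of_le_of_lt this (lt_of_lt_of_le hlt (min_le_right _ _))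
      exact absurd this (lt_irrefl _)
  -- scale up
  have hρr : ρ₁ < r := by
    have : ρ₁ ^ N < r ^ N := by
      have : 0 < ρ₂ ^ N := by positivity
      linarith
    exact lt_of_pow_lt_pow_left₀ N hr.le this
  set t := r / ρ₁ with ht
  have ht1 : 1 < t := by rw [ht, one_lt_div hρ1]; exact hρr
  have ht0 : 0 < t := by linarith
  set Ω' : Set (E N) := (fun x => t⁻¹ • x) ⁻¹' Ω₁ with hΩ'
  have hΩ'o : IsOpen Ω' := h1.preimage (continuous_const_smul _)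
  have hΩ'v : volume Ω' = volume (ball (0 : E N) r) := by
    rw [hΩ', Measure.addHaar_preimage_smul _ (inv_ne_zero ht0.ne'), hv1, mb_vol N ρ₁ hρ1,
      mb_vol N r hr, ← mul_assoc, ← ENNReal.ofReal_mul (abs_nonneg _)]
    congr 2
    rw [finrank_euclideanSpace, Fintype.card_fin, inv_pow, inv_inv, abs_of_pos (by positivity),
      ht, div_pow]
    field_simp
  have h4 := hmin Ω' hΩ'o hΩ'v
  rw [hΩ', (hSCL N n t ht0).2.1 Ω₁] at h4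
  have h5 : lam N n Ω₁ / t ^ 2 ≤ L / t ^ 2 := div_le_div_of_nonneg_right h3 (by positivity)
  have h6 : L / t ^ 2 < L := by
    rw [div_lt_iff₀ (by positivity)]
    have h7 : 1 < t ^ 2 := one_lt_pow₀ ht1 two_ne_zero
    nlinarith
  linarith

/-- numerical contradiction -/
lemma mb_final (hTHI : T_THI) {N m : ℕ} {r ρ₁ ρ₂ L κ Λ : ℝ} {Ω₁ : Set (E N)}
    (hN : 1 ≤ N) (hm : 2 ≤ m) (hr : 0 < r) (h1 : IsOpen Ω₁)
    (hρ1 : 0 < ρ₁) (hρ2 : 0 < ρ₂) (hv1 : volume Ω₁ = volume (ball (0 : E N) ρ₁))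
    (hs : ρ₁ ^ N + ρ₂ ^ N = r ^ N)
    (hΛ : 0 < Λ) (hΛ1 : lam N 1 (ball (0 : E N) ρ₁) = Λ / ρ₁ ^ 2)
    (hκ : 0 < 1 + κ)
    (hL : L ≤ (1 + κ) * (Λ / r ^ 2)) (hm1 : lam N m Ω₁ ≤ L) (h22 : Λ / ρ₂ ^ 2 ≤ L)
    (hpos : 0 < 1 + 4 / (N : ℝ) * (1 - 48 * Real.log m ^ (-(2 / 3) : ℝ)))
    (hnum : 1 < ((1 + 4 / (N : ℝ) * (1 - 48 * Real.log m ^ (-(2 / 3) : ℝ))) / (1 + κ)) ^
      ((N : ℝ) / 2) + (1 / (1 + κ)) ^ ((N : ℝ) / 2)) : False := by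
  have hT := hTHI N m ρ₁ Ω₁ hN hm hρ1 h1 hv1
  rw [hΛ1] at hT
  set P := 1 + 4 / (N : ℝ) * (1 - 48 * Real.log m ^ (-(2 / 3) : ℝ)) with hP
  have hN' : (0 : ℝ) < N := by exact_mod_cast hN
  have conv : ∀ ρ : ℝ, 0 < ρ → ((ρ / r) ^ 2) ^ ((N : ℝ) / 2) = ρ ^ N / r ^ N := by
    intro ρ hρ
    have h0 : 0 < ρ / r := by positivity
    rw [← Real.rpow_natCast (ρ / r) 2, ← Real.rpow_mul h0.le]
    have : ((2 : ℕ) : ℝ) * ((N : ℝ) / 2) = N := by push_cast; ring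
    rw [this, Real.rpow_natCast, div_pow]
  have e1 : P / (1 + κ) ≤ (ρ₁ / r) ^ 2 := by
    have h3 : Λ / ρ₁ ^ 2 * P ≤ (1 + κ) * (Λ / r ^ 2) := (hT.trans hm1).trans hL
    rw [div_le_iff₀ hκ, div_pow, div_mul_eq_mul_div, le_div_iff₀ (by positivity)]
    rw [div_mul_eq_mul_div, mul_div_assoc', div_le_div_iff₀ (by positivity) (by positivity)] at h3
    have h4 : Λ * (P * r ^ 2) ≤ Λ * (ρ₁ ^ 2 * (1 + κ)) := by nlinarith
    exact le_of_mul_le_mul_left h4 hΛ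
  have e2 : 1 / (1 + κ) ≤ (ρ₂ / r) ^ 2 := by
    have h3 : Λ / ρ₂ ^ 2 ≤ (1 + κ) * (Λ / r ^ 2) := h22.trans hL
    rw [div_le_iff₀ hκ, div_pow, div_mul_eq_mul_div, le_div_iff₀ (by positivity)]
    rw [mul_div_assoc', div_le_div_iff₀ (by positivity) (by positivity)] at h3
    have h4 : Λ * (1 * r ^ 2) ≤ Λ * (ρ₂ ^ 2 * (1 + κ)) := by nlinarith
    exact le_of_mul_le_mul_left h4 hΛ
  have f1 := Real.rpow_le_rpow (by positivity) e1 (by positivity : (0 : ℝ) ≤ (N : ℝ) / 2)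
  have f2 := Real.rpow_le_rpow (by positivity) e2 (by positivity : (0 : ℝ) ≤ (N : ℝ) / 2)
  rw [conv ρ₁ hρ1] at f1
  rw [conv ρ₂ hρ2] at f2
  have f3 : ρ₁ ^ N / r ^ N + ρ₂ ^ N / r ^ N = 1 := by
    rw [← add_div, hs, div_self (by positivity)]
  linarith

theorem pf_MB (hTHI : T_THI) (hBUD : T_BUD) (hDU : T_DU) (hNUM2 : T_NUM2) (hSCL : T_SCL)
    (hFK : T_FK) (hMON : T_MON) (hPI : T_PI) (hNE : T_NE) (hAP : T_AP) : T_MB := by
  obtain ⟨N₀, hN₀⟩ := hNUM2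
  refine ⟨2 * N₀ + 10, ?_⟩
  intro N n r Ω hn0 hnN hr hΩ hvol hmin
  have hN1 : 1 ≤ N := by omega
  have hn1 : 1 ≤ n := by omega
  have hne : Ω.Nonempty := by
    rw [nonempty_iff_ne_empty]
    rintro rfl
    rw [measure_empty] at hvol
    exact (measure_ball_pos volume (0 : E N) hr).ne hvol
  refine ⟨hne, ?_⟩
  rw [isPreconnected_iff_subset_of_disjoint]
  intro u v hu hv hsub hdis
  by_contra hcon
  push Not at hcon
  obtain ⟨hc1, hc2⟩ := hcon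
  obtain ⟨x, hxΩ, hxu⟩ := not_subset.1 hc1
  obtain ⟨y, hyΩ, hyv⟩ := not_subset.1 hc2
  have hxv : x ∈ v := (hsub hxΩ).resolve_left hxu
  have hyu : y ∈ u := (hsub hyΩ).resolve_right hyv
  set Ω₁ := Ω ∩ u with hΩ₁
  set Ω₂ := Ω ∩ v with hΩ₂
  have h1 : IsOpen Ω₁ := hΩ.inter hu
  have h2 : IsOpen Ω₂ := hΩ.inter hv
  have hd : Disjoint Ω₁ Ω₂ := by
    rw [Set.disjoint_left]
    intro z hz1 hz2
    have : z ∈ Ω ∩ (u ∩ v) := ⟨hz1.1, hz1.2, hz2.2⟩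
    rw [hdis] at this
    exact this
  have hU : Ω₁ ∪ Ω₂ = Ω := by
    rw [hΩ₁, hΩ₂, ← inter_union_distrib_left]
    exact inter_eq_left.2 hsub
  have hne1 : Ω₁.Nonempty := ⟨y, hyΩ, hyu⟩
  have hne2 : Ω₂.Nonempty := ⟨x, hxΩ, hxv⟩
  have hfin : volume Ω ≠ ∞ := by rw [hvol]; exact measure_ball_lt_top.ne
  obtain ⟨ρ₁, hρ1, hv1⟩ := mb_rad hN1 Ω₁ h1 hne1
    (ne_top_of_le_ne_top hfin (measure_mono inter_subset_left))
  obtain ⟨ρ₂, hρ2, hv2⟩ := mb_rad hN1 Ω₂ h2 hne2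
    (ne_top_of_le_ne_top hfin (measure_mono inter_subset_left))
  have hvolU : volume Ω₁ + volume Ω₂ = volume (ball (0 : E N) r) := by
    rw [← measure_union hd h2.measurableSet, hU, hvol]
  have hs : ρ₁ ^ N + ρ₂ ^ N = r ^ N := by
    apply mb_sum hr hρ1 hρ2
    rw [← hv1, ← hv2, hvolU]
  have hs' : ρ₂ ^ N + ρ₁ ^ N = r ^ N := by rw [add_comm]; exact hs
  have hmin1 : ∀ Ω' : Set (E N), IsOpen Ω' → volume Ω' = volume (ball (0 : E N) r) →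
      lam N n (Ω₁ ∪ Ω₂) ≤ lam N n Ω' := by rw [hU]; exact hmin
  have hmin2 : ∀ Ω' : Set (E N), IsOpen Ω' → volume Ω' = volume (ball (0 : E N) r) →
      lam N n (Ω₂ ∪ Ω₁) ≤ lam N n Ω' := by rw [union_comm]; exact hmin1
  have hp2 := mb_piece hDU hSCL hFK hMON hPI hNE hAP hN1 hn1 hr h1 h2 hd hne1 hρ1 hρ2 hv1
    (by rw [hU]; exact hvol) hs hmin1
  have hp1 := mb_piece hDU hSCL hFK hMON hPI hNE hAP hN1 hn1 hr h2 h1 hd.symm hne2 hρ2 hρ1 hv2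
    (by rw [union_comm, hU]; exact hvol) hs' hmin2
  rw [union_comm] at hp1
  rw [hU] at hp1 hp2
  set L := lam N n Ω with hL
  have hΛ := hPI N hN1
  set Λ := lam N 1 (ball (0 : E N) 1) with hΛd
  have hN3 : 3 ≤ N := by omega
  have hN3' : (3 : ℝ) ≤ N := by exact_mod_cast hN3
  set κ := 4 * ((N : ℝ) - 1) / ((N : ℝ) - 2) ^ 2 with hκ
  have hκ0 : 0 ≤ κ := by
    rw [hκ]
    have : 0 ≤ (N : ℝ) - 1 := by linarith
    positivity
  have hLle : L ≤ (1 + κ) * (Λ / r ^ 2) := by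
    have e1 := hmin (ball 0 r) isOpen_ball rfl
    have e2 : lam N n (ball (0 : E N) r) ≤ lam N (N + 1) (ball (0 : E N) r) := by
      apply le_csInf (hNE N (N + 1) _ hN1 isOpen_ball (nonempty_ball.2 hr))
      intro c hc
      exact mb_lam_le hAP hn1 (hMON N n (N + 1) _ _ hnN subset_rfl hc)
    have e3 := (hSCL N (N + 1) r hr).2.2
    have e4 := hBUD N hN3
    rw [e3] at e2
    refine e1.trans (e2.trans ?_)
    rw [mul_div_assoc']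
    exact div_le_div_of_nonneg_right e4 (by positivity)
  have hf1 : Λ / ρ₁ ^ 2 ≤ L := (mb_fk hFK hNE hN1 le_rfl hρ1 h1 hne1 hv1).trans hp1
  have hf2 : Λ / ρ₂ ^ 2 ≤ L := (mb_fk hFK hNE hN1 le_rfl hρ2 h2 hne2 hv2).trans hp2
  set m := (n + 1) / 2 with hm
  have hm0 : N₀ ≤ m := by omega
  have hm2 : 2 ≤ m := by omega
  obtain ⟨hpos, hnum⟩ := hN₀ N m (by omega) hm0
  have hmm : min (lam N m Ω₁) (lam N m Ω₂) ≤ L := by
    apply le_csInf (hNE N n Ω hN1 hΩ hne)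
    intro c hc
    rw [← hU] at hc
    obtain ⟨n₁, n₂, hnn, hc1, hc2⟩ := hDU N n Ω₁ Ω₂ c h1 h2 hd hn1 hc
    by_cases hcase : m ≤ n₁
    · exact (min_le_left _ _).trans
        (mb_lam_le hAP (by omega) (hMON N m n₁ _ _ hcase subset_rfl hc1))
    · have : m ≤ n₂ := by omega
      exact (min_le_right _ _).trans
        (mb_lam_le hAP (by omega) (hMON N m n₂ _ _ this subset_rfl hc2))
  rcases min_le_iff.1 hmm with hcase | hcase
  · exact mb_final hTHI hN1 hm2 hr h1 hρ1 hρ2 hv1 hs hΛ (hSCL N 1 ρ₁ hρ1).2.2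
      (by linarith) hLle hcase hf2 hpos hnum
  · exact mb_final hTHI hN1 hm2 hr h2 hρ2 hρ1 hv2 hs' hΛ (hSCL N 1 ρ₂ hρ2).2.2
      (by linarith) hLle hcase hf1 hpos hnum

end Pool.Agent.H85.LK
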