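import Pool.Agent.H85.LK.Targets

set_option autoImplicit false

open MeasureTheory Metric Set ProbabilityTheory
open scoped ENNReal

namespace Pool.Agent.H85.LK

lemma nonempty_of_vol {N : ℕ} {r : ℝ} (hr : 0 < r) {Ω : Set (E N)}
    (h : volume Ω = volume (ball (0 : E N) r)) : Ω.Nonempty := by
  rw [nonempty_iff_ne_empty]
  rintro rfl
  rw [measure_empty] at h
  exact (measure_ball_pos volume (0 : E N) hr).ne h

theorem pf_THI (hASM : T_ASM) (hNUM : T_NUM) (hFK : T_FK) (hCHI : T_CHI) (hSCL : T_SCL)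
    (hPI : T_PI) (hNE : T_NE) : T_THI := by
  intro N n r Ω hN hn hr hΩ hvol
  have hN' : (0 : ℝ) < N := by exact_mod_cast hN
  rw [(hSCL N 1 r hr).2.2]
  have hΛ := hPI N hN
  set Λ := lam N 1 (ball (0 : E N) 1) with hΛd
  have hΛr : 0 ≤ Λ / r ^ 2 := by positivity
  apply le_csInf (hNE N n Ω hN hΩ (nonempty_of_vol hr hvol))
  intro c hc
  have hx0 : 0 ≤ Real.log n ^ (-(2 / 3) : ℝ) :=
    Real.rpow_nonneg (Real.log_nonneg (by exact_mod_cast (by omega : 1 ≤ n))) _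
  by_cases hx : 48 * Real.log n ^ (-(2 / 3) : ℝ) ≤ 1
  · set b := Real.sqrt (Real.log n) with hb
    have hL : 0 < Real.log n := Real.log_pos (by exact_mod_cast (by omega : 1 < n))
    have hb1 : 1 ≤ b := by
      rw [hb, Real.one_le_sqrt]
      by_contra hcon
      push Not at hcon
      have : 1 ≤ Real.log n ^ (-(2 / 3) : ℝ) := by
        apply Real.one_le_rpow_of_pos_of_le_one_of_nonpos hL hcon.le (by norm_num)
      linarith
    have h1 := hASM N n r b c Ω hN (by omega) hr hb1 hΩ hvol hc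
    obtain ⟨hM, hMD, hDM⟩ := hCHI b hb1
    have hD := lt_of_lt_of_le hM hMD
    set μ := DD b (b ^ (-(1 / 3) : ℝ)) / M2 b (b ^ (-(1 / 3) : ℝ)) with hμ
    have hμ1 : 1 ≤ μ := by rw [hμ, le_div_iff₀ hM]; linarith
    have hμ2 : μ ≤ b ^ 2 / 4 + 11 * b ^ ((2 / 3) : ℝ) := by
      rw [hμ, div_le_iff₀ hM]; exact hDM
    have h2 := hNUM n b μ hn hb hx hμ1 hμ2
    have h3 : 1 / μ = M2 b (b ^ (-(1 / 3) : ℝ)) / DD b (b ^ (-(1 / 3) : ℝ)) := by
      rw [hμ, one_div_div]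
    rw [h3] at h2
    refine le_trans (mul_le_mul_of_nonneg_left ?_ hΛr) h1
    have h4 := mul_le_mul_of_nonneg_left h2 (by positivity : (0 : ℝ) ≤ 2 / N)
    rw [← mul_assoc] at h4
    have h5 : 2 / (N : ℝ) * 2 * (1 - 48 * Real.log n ^ (-(2 / 3) : ℝ)) =
        4 / N * (1 - 48 * Real.log n ^ (-(2 / 3) : ℝ)) := by ring
    rw [h5] at h4
    rw [← mul_assoc] at h4
    linarith
  · push Not at hx
    have h1 := hFK N n r c Ω hN (by omega) hr hΩ hvol.le hc
    refine le_trans ?_ h1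
    have h4 : 4 / (N : ℝ) * (1 - 48 * Real.log n ^ (-(2 / 3) : ℝ)) ≤ 0 :=
      mul_nonpos_of_nonneg_of_nonpos (by positivity) (by linarith)
    nlinarith

end Pool.Agent.H85.LK
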