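import Pool.Agent.H18.LK.AP
import Pool.Agent.H85.LK.ASM
import Pool.Agent.H18.LK.BUA
import Pool.Agent.H19.LK.BUB
import Pool.Agent.H99.LK.BUC
import Pool.Agent.H1.LK.BUD
import Pool.Agent.H68.LK.CH
import Pool.Agent.H7.LK.CHI
import Pool.Agent.H31.LK.CHP
import Pool.Agent.H77.LK.CNT
import Pool.Agent.H81.LK.CNV
import Pool.Agent.H51.LK.DIF
import Pool.Agent.H7.LK.DU
import Pool.Agent.H65.LK.ENL
import Pool.Agent.H90.LK.FK
import Pool.Agent.H17.LK.FL2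
import Pool.Agent.H27.LK.GRD
import Pool.Agent.H99.LK.GV
import Pool.Agent.H99.LK.HDY
import Pool.Agent.H84.LK.HK
import Pool.Agent.H17.LK.INT
import Pool.Agent.H65.LK.LA
import Pool.Agent.H71.LK.LIN
import Pool.Agent.H85.LK.MA
import Pool.Agent.H85.LK.MB
import Pool.Agent.H81.LK.MEA
import Pool.Agent.H33.LK.MON
import Pool.Agent.H19.LK.NE
import Pool.Agent.H33.LK.NRM
import Pool.Agent.H71.LK.NUM
import Pool.Agent.H90.LK.ONB
import Pool.Agent.H59.LK.PI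
import Pool.Agent.H66.LK.PLR
import Pool.Agent.H77.LK.POL
import Pool.Agent.H77.LK.PWR
import Pool.Agent.H67.LK.QID
import Pool.Agent.H68.LK.RP
import Pool.Agent.H59.LK.RPA
import Pool.Agent.H17.LK.RPT
import Pool.Agent.H3.LK.SCL
import Pool.Agent.H3.LK.SCQ
import Pool.Agent.H99.LK.SYM
import Pool.Agent.H85.LK.THI
import Pool.Agent.H58.LK.COR
import Pool.Agent.H58.LK.FKL
import Pool.Agent.H58.LK.PVO
import Pool.Agent.H54.LK.COV
import Pool.Agent.H35.LK.NUM2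
import Pool.Agent.H19.LK.FL3
import Pool.Agent.H7.LK.FL1
import Pool.Agent.H7.LK.RPS

set_option autoImplicit false

namespace Pool.Agent.H85.LK

/-- everything -/
theorem all_of : T_THI ∧ T_BUD ∧ T_MA ∧ T_MB := by
  have hAP : T_AP := Pool.Agent.H18.LK.pf_AP
  have hNE : T_NE := Pool.Agent.H19.LK.pf_NE
  have hHK : T_HK := Pool.Agent.H84.LK.pf_HK
  have hINT : T_INT := Pool.Agent.H17.LK.pf_INT hHK
  have hQID : T_QID := Pool.Agent.H67.LK.pf_QID hHK hINT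
  have hENL : T_ENL := Pool.Agent.H65.LK.pf_ENL hHK hQID
  have hPLR : T_PLR := Pool.Agent.H66.LK.pf_PLR
  have hCHP : T_CHP := Pool.Agent.H31.LK.pf_CHP
  have hCHI : T_CHI := Pool.Agent.H7.LK.pf_CHI
  have hGV : T_GV := Pool.Agent.H99.LK.pf_GV
  have hNRM : T_NRM := Pool.Agent.H33.LK.pf_NRM hGV hCHP
  have hMEA : T_MEA := Pool.Agent.H81.LK.mea hCHP
  have hFL2 : T_FL2 := Pool.Agent.H17.LK.pf_FL2 hNRM hMEA
  have hONB : T_ONB := Pool.Agent.H90.LK.onb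
  have hSCL : T_SCL := Pool.Agent.H3.LK.pf_SCL
  have hPI : T_PI := Pool.Agent.H59.LK.pf_PI hHK hINT hENL hNE
  have hRPS : T_RPS := Pool.Agent.H7.LK.pf_RPS
  have hRPA : T_RPA := Pool.Agent.H59.LK.pf_RPA hHK hINT hRPS
  have hRPT : T_RPT := Pool.Agent.H17.LK.pf_RPT hHK hINT
  have hLA : T_LA := Pool.Agent.H65.LK.pf_LA hAP
  have hRP : T_RP := Pool.Agent.H68.LK.pf_RP hHK hRPS hRPA hRPT hLA hSCL
  have hPOL : T_POL := Pool.Agent.H77.LK.pf_POL hHK hINT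
  have hPVO : T_PVO := Pool.Agent.H58.LK.pf_PVO
  have hGRD : T_GRD := Pool.Agent.H27.LK.pf_GRD hPVO hPLR
  have hCNT : T_CNT := Pool.Agent.H77.LK.pf_CNT hHK hINT
  have hCNV : T_CNV := Pool.Agent.H81.LK.cnv hHK hINT hPOL hPVO hGRD hCNT
  have hPWR : T_PWR := Pool.Agent.H77.LK.pf_PWR hHK hINT
  have hSCQ : T_SCQ := Pool.Agent.H3.LK.pf_SCQ
  have hFKL : T_FKL := Pool.Agent.H58.LK.pf_FKL hRP hPWR hCNV hSCQ
  have hCH : T_CH := Pool.Agent.H68.LK.pf_CH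
  have hCOV : T_COV := Pool.Agent.H54.LK.pf_COV hGV hCH hCHP
  have hDIF : T_DIF := Pool.Agent.H51.LK.pf_DIF hGV hCOV hCHP
  have hCOR : T_COR := Pool.Agent.H58.LK.pf_COR hGV hCHP
  have hFL1 : T_FL1 := Pool.Agent.H7.LK.pf_FL1 hQID hINT hDIF hMEA
  have hFL3 : T_FL3 := Pool.Agent.H19.LK.pf_FL3 hCOR hMEA
  have hNUM2 : T_NUM2 := Pool.Agent.H35.LK.pf_NUM2
  have hFK : T_FK := Pool.Agent.H90.LK.fk hFKL hENL
  have hNUM : T_NUM := Pool.Agent.H71.LK.pf_NUM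
  have hSYM : T_SYM := Pool.Agent.H99.LK.pf_SYM
  have hBUC : T_BUC := Pool.Agent.H99.LK.pf_BUC hSYM
  have hBUB : T_BUB := Pool.Agent.H19.LK.pf_BUB
  have hBUA : T_BUA := Pool.Agent.H18.LK.pf_BUA hPLR
  have hHDY : T_HDY := Pool.Agent.H99.LK.pf_HDY
  have hBUD : T_BUD := Pool.Agent.H1.LK.pf_BUD hAP hNE hBUA hBUB hHDY hBUC
  have hDU : T_DU := Pool.Agent.H7.LK.pf_DU Pool.Agent.H71.LK.pf_LIN
  have hMON : T_MON := Pool.Agent.H33.LK.pf_MON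
  have hASM : T_ASM := pf_ASM hFKL hENL hONB hFL1 hFL2 hFL3 hMEA hCHI hPI
  have hTHI : T_THI := pf_THI hASM hNUM hFK hCHI hSCL hPI hNE
  exact ⟨hTHI, hBUD, pf_MA hTHI hBUD hFK hSCL hPI hNE,
    pf_MB hTHI hBUD hDU hNUM2 hSCL hFK hMON hPI hNE hAP⟩

end Pool.Agent.H85.LK
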